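import Pool.Agent.Helper240.ZU.A1

/-!
# A zero of `ζ` gives functions which are completely multiplicative outside the powers of one prime

For a zero `α` of `ζ` with `0 < Re α < 1` and a prime `l`, `G(n) = n^(-α)` for `l ∤ n` and
`G(n) = (1 - l) n^(-α)` for `l ∣ n` has partial sums `O(N^(-Re α))`.
-/

set_option autoImplicit false

namespace Pool.Agent.R269.KS

open Finset Filter Topology

/-- `DN N α + N^(1-α)/(α-1)` is small if `ζ α = 0` -/
theorem A_bound {α : ℂ} (h0 : 0 < α.re) (h1 : α ≠ 1) (hz : riemannZeta α = 0) (N : ℕ) (hN : 1 ≤ N) :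
    ‖ZU.DN N α + (N : ℂ) ^ (1 - α) / (α - 1)‖ ≤ ‖α‖ / α.re * (N : ℝ) ^ (-α.re) := by
  have h := ZU.zeta_formula N hN α h0 h1
  rw [hz] at h
  have e : ZU.DN N α + (N : ℂ) ^ (1 - α) / (α - 1) =
      α * ∫ u in Set.Ioi (N : ℝ), ((Int.fract u : ℝ) : ℂ) * (u : ℂ) ^ (-α - 1) := by
    linear_combination -h
  rw [e, norm_mul]
  have hN0 : (0 : ℝ) < N := by exact_mod_cast hN
  have hb : ‖∫ u in Set.Ioi (N : ℝ), ((Int.fract u : ℝ) : ℂ) * (u : ℂ) ^ (-α - 1)‖ ≤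
      ∫ u in Set.Ioi (N : ℝ), u ^ (-α.re - 1) := by
    apply MeasureTheory.norm_integral_le_of_norm_le
    · exact integrableOn_Ioi_rpow_of_lt (by linarith) hN0
    · filter_upwards [MeasureTheory.ae_restrict_mem measurableSet_Ioi] with u hu
      have hu0 : 0 < u := hN0.trans hu
      rw [norm_mul, Complex.norm_cpow_eq_rpow_re_of_pos hu0, Complex.norm_real,
        Real.norm_of_nonneg (Int.fract_nonneg u)]
      have e1 : (-α - 1).re = -α.re - 1 := by simp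
      rw [e1]
      have h2 : Int.fract u ≤ 1 := (Int.fract_lt_one u).le
      have h3 : 0 ≤ u ^ (-α.re - 1) := Real.rpow_nonneg hu0.le _
      nlinarith
  rw [integral_Ioi_rpow_of_lt (by linarith) hN0] at hb
  have e2 : -(N : ℝ) ^ (-α.re - 1 + 1) / (-α.re - 1 + 1) = (N : ℝ) ^ (-α.re) / α.re := by
    rw [show -α.re - 1 + 1 = -α.re by ring, neg_div_neg_eq]
  rw [e2] at hb
  calc ‖α‖ * ‖∫ u in Set.Ioi (N : ℝ), ((Int.fract u : ℝ) : ℂ) * (u : ℂ) ^ (-α - 1)‖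
      ≤ ‖α‖ * ((N : ℝ) ^ (-α.re) / α.re) := mul_le_mul_of_nonneg_left hb (norm_nonneg _)
    _ = _ := by ring

open Classical in
/-- the function attached to the zero `α` and the prime `l` -/
noncomputable def G (α : ℂ) (l n : ℕ) : ℂ := (if l ∣ n then 1 - (l : ℂ) else 1) * (n : ℂ) ^ (-α)

theorem G_one (α : ℂ) {l : ℕ} (hl : l.Prime) : G α l 1 = 1 := by
  unfold G
  have : ¬ l ∣ 1 := fun h => hl.one_lt.ne' (Nat.dvd_one.1 h)
  rw [if_neg this]
  simp

theorem G_mul (α : ℂ) {l : ℕ} (hl : l.Prime) (m n : ℕ) (h : ¬ l ∣ m ∨ ¬ l ∣ n) :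
    G α l (m * n) = G α l m * G α l n := by
  unfold G
  have e : ((m * n : ℕ) : ℂ) ^ (-α) = (m : ℂ) ^ (-α) * (n : ℂ) ^ (-α) := by
    rw [Nat.cast_mul, Complex.natCast_mul_natCast_cpow]
  rw [e]
  by_cases hm : l ∣ m
  · have hn : ¬ l ∣ n := by
      rcases h with h | h
      · exact absurd hm h
      · exact h
    rw [if_pos hm, if_neg hn, if_pos (hm.mul_right n)]
    ring
  · by_cases hn : l ∣ n
    · rw [if_neg hm, if_pos hn, if_pos (hn.mul_left m)]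
      ring
    · have : ¬ l ∣ m * n := by
        intro h2
        rcases (hl.dvd_mul).1 h2 with h3 | h3
        · exact hm h3
        · exact hn h3
      rw [if_neg hm, if_neg hn, if_neg this]
      ring

theorem pow_cpow (α : ℂ) (p k : ℕ) : (((p ^ k : ℕ) : ℂ)) ^ (-α) = ((p : ℂ) ^ (-α)) ^ k := by
  induction k with
  | zero => simp
  | succ k ih =>
    rw [pow_succ, Nat.cast_mul, Complex.natCast_mul_natCast_cpow, ih, pow_succ]

theorem G_local (α : ℂ) (h0 : 0 < α.re) (h1 : α.re < 1) {l : ℕ} (hl : l.Prime) (p : ℕ)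
    (hp : p.Prime) :
    ∃ L : ℂ, L ≠ 0 ∧ Tendsto (fun K : ℕ => ∑ k ∈ range K, G α l (p ^ k)) atTop (𝓝 L) := by
  set q : ℂ := (p : ℂ) ^ (-α) with hq
  have hqn : ‖q‖ = (p : ℝ) ^ (-α.re) := by
    rw [hq, Complex.norm_natCast_cpow_of_pos hp.pos]
    simp
  have hp1 : (1 : ℝ) < p := by exact_mod_cast hp.one_lt
  have hq1 : ‖q‖ < 1 := by
    rw [hqn]
    exact Real.rpow_lt_one_of_one_lt_of_neg hp1 (by linarith)
  have hne : 1 - q ≠ 0 := by
    intro h
    have : q = 1 := by linear_combination -h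
    rw [this] at hq1
    simp at hq1
  have hgeo : Tendsto (fun K : ℕ => ∑ k ∈ range K, q ^ k) atTop (𝓝 (1 - q)⁻¹) :=
    (hasSum_geometric_of_norm_lt_one hq1).tendsto_sum_nat
  by_cases hpl : l = p
  · subst hpl
    refine ⟨(l : ℂ) + (1 - l) * (1 - q)⁻¹, ?_, ?_⟩
    · intro h
      have h3 : (l : ℂ) * q = 1 := by
        field_simp at h
        linear_combination -h
      have h4 : ‖(l : ℂ) * q‖ = 1 := by rw [h3]; simp
      rw [norm_mul, hqn, Complex.norm_natCast] at h4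
      have h6 : (l : ℝ) * (l : ℝ) ^ (-α.re) = (l : ℝ) ^ (1 - α.re) := by
        rw [sub_eq_add_neg, Real.rpow_add (by linarith), Real.rpow_one]
      rw [h6] at h4
      have h7 : (1 : ℝ) < (l : ℝ) ^ (1 - α.re) := Real.one_lt_rpow hp1 (by linarith)
      linarith
    · have h3 := (tendsto_const_nhds (x := (l : ℂ)) (f := atTop)).add
        (hgeo.const_mul (1 - (l : ℂ)))
      refine h3.congr' ?_
      filter_upwards [eventually_ge_atTop 1] with K hK
      obtain ⟨K, rfl⟩ : ∃ J, K = J + 1 := ⟨K - 1, by omega⟩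
      rw [Finset.sum_range_succ', Finset.sum_range_succ']
      have h4 : ∀ k ∈ range K, G α l (l ^ (k + 1)) = (1 - (l : ℂ)) * q ^ (k + 1) := by
        intro k _
        unfold G
        rw [pow_cpow, ← hq, if_pos (dvd_pow_self l (by omega))]
      rw [Finset.sum_congr rfl h4, ← Finset.mul_sum]
      simp only [pow_zero, G_one α hl]
      ring
  · refine ⟨(1 - q)⁻¹, inv_ne_zero hne, ?_⟩
    refine hgeo.congr fun K => ?_
    apply Finset.sum_congr rfl
    intro k _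
    unfold G
    have h5 : ¬ l ∣ p ^ k := by
      intro h
      exact hpl ((Nat.prime_dvd_prime_iff_eq hl hp).1 (hl.dvd_of_dvd_pow h))
    rw [pow_cpow, ← hq, if_neg h5, one_mul]

/-- the multiples of `l` -/
theorem sum_mult (α : ℂ) {l : ℕ} (hl : 0 < l) (N : ℕ) :
    ∑ n ∈ (Icc 1 N).filter (fun n => l ∣ n), (n : ℂ) ^ (-α) = (l : ℂ) ^ (-α) * ZU.DN (N / l) α := by
  unfold ZU.DN
  rw [Finset.mul_sum]
  symm
  apply Finset.sum_nbij' (fun m => l * m) (fun n => n / l)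
  · intro m hm
    rw [mem_Icc] at hm
    rw [mem_filter, mem_Icc]
    refine ⟨⟨Nat.mul_pos hl hm.1, ?_⟩, dvd_mul_right l m⟩
    calc l * m ≤ l * (N / l) := Nat.mul_le_mul_left _ hm.2
      _ ≤ N := Nat.mul_div_le N l
  · intro n hn
    rw [mem_filter, mem_Icc] at hn
    obtain ⟨⟨h1, h2⟩, k, rfl⟩ := hn
    rw [mem_Icc, Nat.mul_div_cancel_left k hl]
    refine ⟨Nat.pos_of_ne_zero fun h => by subst h; simp at h1, ?_⟩
    exact (Nat.le_div_iff_mul_le hl).2 (by rw [mul_comm]; exact h2)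
  · intro m _
    exact Nat.mul_div_cancel_left m hl
  · intro n hn
    rw [mem_filter] at hn
    exact Nat.mul_div_cancel' hn.2
  · intro m _
    rw [Nat.cast_mul, Complex.natCast_mul_natCast_cpow]

theorem sum_G (α : ℂ) {l : ℕ} (hl : 0 < l) (N : ℕ) :
    ∑ n ∈ Icc 1 N, G α l n = ZU.DN N α - (l : ℂ) ^ (1 - α) * ZU.DN (N / l) α := by
  have e : ∀ n ∈ Icc 1 N, G α l n =
      (n : ℂ) ^ (-α) - (if l ∣ n then (l : ℂ) * (n : ℂ) ^ (-α) else 0) := by
    intro n _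
    unfold G
    split_ifs <;> ring
  rw [Finset.sum_congr rfl e, Finset.sum_sub_distrib, ← Finset.sum_filter, ← Finset.mul_sum,
    sum_mult α hl N]
  have hlc : (l : ℂ) ≠ 0 := by exact_mod_cast hl.ne'
  have e2 : (l : ℂ) ^ (1 - α) = l * (l : ℂ) ^ (-α) := by
    rw [sub_eq_add_neg, Complex.cpow_add _ _ hlc, Complex.cpow_one]
  rw [e2]
  unfold ZU.DN
  ring

theorem norm_term (α : ℂ) (n : ℕ) (hn : 1 ≤ n) : ‖(n : ℂ) ^ (-α)‖ = (n : ℝ) ^ (-α.re) := by
  rw [Complex.norm_natCast_cpow_of_pos (by omega)]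
  simp

theorem DN_sub (α : ℂ) (h0 : 0 < α.re) (a b : ℕ) (ha : 1 ≤ a) (hab : a ≤ b) :
    ‖ZU.DN b α - ZU.DN a α‖ ≤ ((b : ℝ) - a) * (a : ℝ) ^ (-α.re) := by
  have ha0 : (0 : ℝ) < a := by exact_mod_cast ha
  induction b, hab using Nat.le_induction with
  | base => simp
  | succ b hb ih =>
    have e : ZU.DN (b + 1) α = ZU.DN b α + ((b + 1 : ℕ) : ℂ) ^ (-α) := by
      unfold ZU.DN
      rw [Finset.sum_Icc_succ_top (by omega)]
    rw [e]
    have h1 : ‖((b + 1 : ℕ) : ℂ) ^ (-α)‖ ≤ (a : ℝ) ^ (-α.re) := by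
      rw [norm_term α (b + 1) (by omega)]
      apply Real.rpow_le_rpow_of_nonpos ha0 _ (by linarith)
      exact_mod_cast (by omega : a ≤ b + 1)
    calc ‖ZU.DN b α + ((b + 1 : ℕ) : ℂ) ^ (-α) - ZU.DN a α‖
        = ‖(ZU.DN b α - ZU.DN a α) + ((b + 1 : ℕ) : ℂ) ^ (-α)‖ := by congr 1; ring
      _ ≤ ‖ZU.DN b α - ZU.DN a α‖ + ‖((b + 1 : ℕ) : ℂ) ^ (-α)‖ := norm_add_le _ _
      _ ≤ ((b : ℝ) - a) * (a : ℝ) ^ (-α.re) + (a : ℝ) ^ (-α.re) := add_le_add ih h1
      _ = (((b + 1 : ℕ) : ℝ) - a) * (a : ℝ) ^ (-α.re) := by push_cast; ring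

/-- the partial sums of `G` -/
theorem G_bound {α : ℂ} (h0 : 0 < α.re) (h1 : α.re < 1) (hz : riemannZeta α = 0) {l : ℕ}
    (hl : l.Prime) : ∃ C : ℝ, 0 < C ∧ ∀ N : ℕ, 1 ≤ N →
      ‖∑ n ∈ Icc 1 N, G α l n‖ ≤ C * (N : ℝ) ^ (-α.re) := by
  have hα1 : α ≠ 1 := by
    rintro rfl
    simp at h1
  set K : ℝ := ‖α‖ / α.re with hK
  have hK0 : 0 ≤ K := div_nonneg (norm_nonneg _) h0.le
  have hl0 : (0 : ℝ) < l := by exact_mod_cast hl.pos
  have hl1 : (1 : ℝ) ≤ l := by exact_mod_cast hl.one_lt.le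
  refine ⟨(l + K + l * K) * 2 + l * l, by positivity, fun N hN => ?_⟩
  have hN0 : (0 : ℝ) < N := by exact_mod_cast hN
  have hNp : 0 < (N : ℝ) ^ (-α.re) := Real.rpow_pos_of_pos hN0 _
  rw [sum_G α hl.pos N]
  rcases Nat.eq_zero_or_pos (N / l) with hM | hM
  · have hNl : N < l := by
      rcases (Nat.div_eq_zero_iff).1 hM with h | h
      · exact absurd h hl.pos.ne'
      · exact h
    have e : ZU.DN (N / l) α = 0 := by
      rw [hM]
      unfold ZU.DN
      simp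
    rw [e, mul_zero, sub_zero]
    have h2 : ‖ZU.DN N α‖ ≤ N := by
      unfold ZU.DN
      refine (norm_sum_le _ _).trans ?_
      refine (Finset.sum_le_card_nsmul _ _ 1 fun n hn => ?_).trans (by simp)
      rw [mem_Icc] at hn
      rw [norm_term α n hn.1]
      exact Real.rpow_le_one_of_one_le_of_nonpos (by exact_mod_cast hn.1) (by linarith)
    have h3 : (N : ℝ) ≤ l := by exact_mod_cast hNl.le
    have h4 : (1 : ℝ) ≤ l * (N : ℝ) ^ (-α.re) := by
      rw [Real.rpow_neg hN0.le]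
      have h5 : (N : ℝ) ^ α.re ≤ l := by
        calc (N : ℝ) ^ α.re ≤ (N : ℝ) ^ (1 : ℝ) :=
              Real.rpow_le_rpow_of_exponent_le (by exact_mod_cast hN) h1.le
          _ = N := Real.rpow_one _
          _ ≤ l := h3
      rw [← div_eq_mul_inv, le_div_iff₀ (Real.rpow_pos_of_pos hN0 _), one_mul]
      exact h5
    calc ‖ZU.DN N α‖ ≤ l * 1 := by linarith
      _ ≤ l * (l * (N : ℝ) ^ (-α.re)) := mul_le_mul_of_nonneg_left h4 hl0.le
      _ = l * l * (N : ℝ) ^ (-α.re) := by ring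
      _ ≤ ((l + K + l * K) * 2 + l * l) * (N : ℝ) ^ (-α.re) := by
          apply mul_le_mul_of_nonneg_right _ hNp.le
          have : 0 ≤ (l + K + l * K) * 2 := by positivity
          linarith
  · set M : ℕ := N / l with hMd
    set N' : ℕ := l * M with hN'
    have hN'le : N' ≤ N := Nat.mul_div_le N l
    have hN'1 : 1 ≤ N' := Nat.mul_pos hl.pos hM
    have hNN : N < N' + l := by
      have := Nat.lt_mul_div_succ N hl.pos
      rw [Nat.mul_add] at this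
      simpa [hN', hMd] using this
    have hlN' : l ≤ N' := Nat.le_mul_of_pos_right l hM
    have hN'0 : (0 : ℝ) < N' := by exact_mod_cast hN'1
    have hM0 : (0 : ℝ) < M := by exact_mod_cast hM
    have hlc : (l : ℂ) ≠ 0 := by exact_mod_cast hl.pos.ne'
    have key : ZU.DN N α - (l : ℂ) ^ (1 - α) * ZU.DN M α =
        (ZU.DN N α - ZU.DN N' α) + (ZU.DN N' α + (N' : ℂ) ^ (1 - α) / (α - 1)) -
          (l : ℂ) ^ (1 - α) * (ZU.DN M α + (M : ℂ) ^ (1 - α) / (α - 1)) := by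
      have e : (N' : ℂ) ^ (1 - α) = (l : ℂ) ^ (1 - α) * (M : ℂ) ^ (1 - α) := by
        rw [hN', Nat.cast_mul, Complex.natCast_mul_natCast_cpow]
      rw [e]
      ring
    rw [key]
    have b1 := DN_sub α h0 N' N hN'1 hN'le
    have b2 := A_bound h0 hα1 hz N' hN'1
    have b3 := A_bound h0 hα1 hz M hM
    have b4 : ‖(l : ℂ) ^ (1 - α)‖ = (l : ℝ) ^ (1 - α.re) := by
      rw [Complex.norm_natCast_cpow_of_pos hl.pos]
      simp
    have b5 : (l : ℝ) ^ (1 - α.re) * (M : ℝ) ^ (-α.re) = l * (N' : ℝ) ^ (-α.re) := by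
      rw [hN', Nat.cast_mul, Real.mul_rpow hl0.le hM0.le, sub_eq_add_neg, Real.rpow_add hl0,
        Real.rpow_one]
      ring
    have b6 : ‖(l : ℂ) ^ (1 - α) * (ZU.DN M α + (M : ℂ) ^ (1 - α) / (α - 1))‖ ≤
        l * K * (N' : ℝ) ^ (-α.re) := by
      rw [norm_mul, b4]
      calc (l : ℝ) ^ (1 - α.re) * ‖ZU.DN M α + (M : ℂ) ^ (1 - α) / (α - 1)‖
          ≤ (l : ℝ) ^ (1 - α.re) * (K * (M : ℝ) ^ (-α.re)) :=
            mul_le_mul_of_nonneg_left b3 (Real.rpow_nonneg hl0.le _)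
        _ = K * ((l : ℝ) ^ (1 - α.re) * (M : ℝ) ^ (-α.re)) := by ring
        _ = l * K * (N' : ℝ) ^ (-α.re) := by rw [b5]; ring
    have b7 : ((N : ℝ) - N') * (N' : ℝ) ^ (-α.re) ≤ l * (N' : ℝ) ^ (-α.re) := by
      apply mul_le_mul_of_nonneg_right _ (Real.rpow_nonneg hN'0.le _)
      have : (N : ℝ) < N' + l := by exact_mod_cast hNN
      linarith
    have b8 : (N' : ℝ) ^ (-α.re) ≤ 2 * (N : ℝ) ^ (-α.re) := by
      have h2 : (N : ℝ) / 2 ≤ N' := by
        have : (N : ℝ) < N' + l := by exact_mod_cast hNN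
        have h3 : (l : ℝ) ≤ N' := by exact_mod_cast hlN'
        linarith
      calc (N' : ℝ) ^ (-α.re) ≤ ((N : ℝ) / 2) ^ (-α.re) :=
            Real.rpow_le_rpow_of_nonpos (by positivity) h2 (by linarith)
        _ = 2 ^ α.re * (N : ℝ) ^ (-α.re) := by
            rw [Real.div_rpow hN0.le two_pos.le, Real.rpow_neg two_pos.le, div_inv_eq_mul, mul_comm]
        _ ≤ 2 * (N : ℝ) ^ (-α.re) := by
            apply mul_le_mul_of_nonneg_right _ hNp.le
            calc (2 : ℝ) ^ α.re ≤ 2 ^ (1 : ℝ) :=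
                  Real.rpow_le_rpow_of_exponent_le (by norm_num) h1.le
              _ = 2 := Real.rpow_one _
    calc ‖(ZU.DN N α - ZU.DN N' α) + (ZU.DN N' α + (N' : ℂ) ^ (1 - α) / (α - 1)) -
          (l : ℂ) ^ (1 - α) * (ZU.DN M α + (M : ℂ) ^ (1 - α) / (α - 1))‖
        ≤ ‖ZU.DN N α - ZU.DN N' α‖ + ‖ZU.DN N' α + (N' : ℂ) ^ (1 - α) / (α - 1)‖ +
          ‖(l : ℂ) ^ (1 - α) * (ZU.DN M α + (M : ℂ) ^ (1 - α) / (α - 1))‖ :=
          (norm_sub_le _ _).trans (add_le_add_left (norm_add_le _ _) _)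
      _ ≤ l * (N' : ℝ) ^ (-α.re) + K * (N' : ℝ) ^ (-α.re) + l * K * (N' : ℝ) ^ (-α.re) :=
          add_le_add (add_le_add (b1.trans b7) b2) b6
      _ = (l + K + l * K) * (N' : ℝ) ^ (-α.re) := by ring
      _ ≤ (l + K + l * K) * (2 * (N : ℝ) ^ (-α.re)) :=
          mul_le_mul_of_nonneg_left b8 (by positivity)
      _ ≤ ((l + K + l * K) * 2 + l * l) * (N : ℝ) ^ (-α.re) := by
          have : 0 ≤ (l : ℝ) * l * (N : ℝ) ^ (-α.re) := by positivity
          nlinarith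

end Pool.Agent.R269.KS
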